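import Pool.Agent.H39Z.SSS.Spec

/-! The duality step: no certificate on an interval gives an arithmetic measure. -/

set_option autoImplicit false

namespace Pool.Agent.H822Z.SssDual

open MeasureTheory Polynomial Set Pool.Agent.H39Z.SSS
open scoped CompactlySupported

/-- A positive functional on a compact space is integration against a finite measure. -/
theorem exists_measure {X : Type} [TopologicalSpace X] [T2Space X] [CompactSpace X]
    [MeasurableSpace X] [BorelSpace X] (L : C(X, ℝ) →ₗ[ℝ] ℝ)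
    (hL : ∀ h : C(X, ℝ), (∀ x, 0 ≤ h x) → 0 ≤ L h) :
    ∃ μ : Measure X, IsFiniteMeasure μ ∧ ∀ h : C(X, ℝ), ∫ x, h x ∂μ = L h := by
  let Λ : C_c(X, ℝ) →ₚ[ℝ] ℝ :=
    { toFun := fun g => L g.toContinuousMap
      map_add' := fun g g' => by
        have : (g + g').toContinuousMap = g.toContinuousMap + g'.toContinuousMap := by
          ext x; simp
        rw [this, map_add]
      map_smul' := fun c g => by
        have : (c • g).toContinuousMap = c • g.toContinuousMap := by
          ext x; simp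
        rw [this, map_smul]; rfl
      monotone' := fun g g' hgg' => by
        have h := hL (g'.toContinuousMap - g.toContinuousMap) (fun x => by
          have := hgg' x
          simpa using this)
        rw [map_sub] at h
        exact sub_nonneg.1 h }
  refine ⟨RealRMK.rieszMeasure Λ, inferInstance, fun h => ?_⟩
  let g : C_c(X, ℝ) := ⟨h, HasCompactSupport.of_compactSpace _⟩
  exact RealRMK.integral_rieszMeasure Λ g

/-- functions that are approximately dominated logarithms of integer polynomials -/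
def Cone (R : ℝ) : Set C(Icc (0 : ℝ) R, ℝ) :=
  {g | ∀ η : ℝ, 0 < η → ∃ (M : ℕ) (P : ℤ[X]), 0 < M ∧ P ≠ 0 ∧
    ∀ x : Icc (0 : ℝ) R, |aeval (x : ℝ) P| ≤ Real.exp (M * (g x + η))}

theorem zero_mem (R : ℝ) : (0 : C(Icc (0 : ℝ) R, ℝ)) ∈ Cone R := by
  intro η hη
  refine ⟨1, 1, one_pos, one_ne_zero, fun x => ?_⟩
  simp
  exact hη.le

theorem add_mem {R : ℝ} {g g' : C(Icc (0 : ℝ) R, ℝ)} (hg : g ∈ Cone R) (hg' : g' ∈ Cone R) :
    g + g' ∈ Cone R := by
  intro η hη
  obtain ⟨M, P, hM, hP, h⟩ := hg (η / 2) (by positivity)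
  obtain ⟨M', P', hM', hP', h'⟩ := hg' (η / 2) (by positivity)
  refine ⟨M * M', P ^ M' * P' ^ M, Nat.mul_pos hM hM',
    mul_ne_zero (pow_ne_zero _ hP) (pow_ne_zero _ hP'), fun x => ?_⟩
  rw [map_mul, map_pow, map_pow, abs_mul, abs_pow, abs_pow]
  have e1 := pow_le_pow_left₀ (abs_nonneg _) (h x) M'
  have e2 := pow_le_pow_left₀ (abs_nonneg _) (h' x) M
  rw [← Real.exp_nat_mul] at e1 e2
  refine (mul_le_mul e1 e2 (by positivity) (by positivity)).trans (le_of_eq ?_)
  rw [← Real.exp_add]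
  congr 1
  simp only [ContinuousMap.add_apply]
  push_cast
  ring

theorem smul_mem {R : ℝ} {g : C(Icc (0 : ℝ) R, ℝ)} (hg : g ∈ Cone R) {r : ℝ} (hr : 0 ≤ r) :
    r • g ∈ Cone R := by
  intro η hη
  obtain ⟨M, P, hM, hP, h⟩ := hg (η / (2 * (r + 1))) (by positivity)
  obtain ⟨N, hN⟩ := exists_nat_gt (2 * ‖g‖ / η)
  have hN0 : (0 : ℝ) < N := lt_of_le_of_lt (by positivity) hN
  have hN1 : 0 < N := by exact_mod_cast hN0
  refine ⟨M * N, P ^ ⌊r * N⌋₊, Nat.mul_pos hM hN1, pow_ne_zero _ hP, fun x => ?_⟩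
  rw [map_pow, abs_pow]
  have e1 := pow_le_pow_left₀ (abs_nonneg _) (h x) ⌊r * N⌋₊
  rw [← Real.exp_nat_mul] at e1
  refine e1.trans (Real.exp_le_exp.2 ?_)
  have hk1 : (⌊r * N⌋₊ : ℝ) ≤ r * N := Nat.floor_le (by positivity)
  have hk2 : r * N < (⌊r * N⌋₊ : ℝ) + 1 := Nat.lt_floor_add_one _
  have hgx : |g x| ≤ ‖g‖ := by
    have := g.norm_coe_le_norm x
    simpa using this
  have hM0 : (0 : ℝ) < M := by exact_mod_cast hM
  set k : ℝ := (⌊r * N⌋₊ : ℝ) with hk
  set η' : ℝ := η / (2 * (r + 1)) with hη'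
  have hη'0 : 0 < η' := by positivity
  have a1 : r * η' ≤ η / 2 := by
    rw [hη', mul_div_assoc', div_le_div_iff₀ (by positivity) (by positivity)]
    nlinarith
  have a2 : ‖g‖ ≤ N * (η / 2) := by
    rw [div_lt_iff₀ hη] at hN
    linarith
  have a3 : (k - r * N) * g x ≤ ‖g‖ := by
    have b1 : |k - r * N| ≤ 1 := by rw [abs_le]; constructor <;> linarith
    calc (k - r * N) * g x ≤ |(k - r * N) * g x| := le_abs_self _
      _ = |k - r * N| * |g x| := abs_mul _ _
      _ ≤ 1 * ‖g‖ := mul_le_mul b1 hgx (abs_nonneg _) zero_le_one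
      _ = ‖g‖ := one_mul _
  have a4 : k * η' ≤ N * (η / 2) := by
    calc k * η' ≤ r * N * η' := mul_le_mul_of_nonneg_right hk1 hη'0.le
      _ = N * (r * η') := by ring
      _ ≤ N * (η / 2) := mul_le_mul_of_nonneg_left a1 hN0.le
  have key : k * (g x + η') ≤ N * (r * g x + η) := by nlinarith
  simp only [ContinuousMap.smul_apply, smul_eq_mul]
  push_cast
  calc k * (M * (g x + η')) = M * (k * (g x + η')) := by ring
    _ ≤ M * (N * (r * g x + η)) := mul_le_mul_of_nonneg_left key hM0.le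
    _ = M * N * (r * g x + η) := by ring

theorem cont_S {δ : ℝ} (hδ : 0 < δ) (Q : ℤ[X]) :
    Continuous fun x : ℝ => S δ (aeval x Q) := by
  unfold S
  refine Continuous.div_const (Continuous.log ?_ fun x => ?_) 2
  · exact ((Polynomial.continuous_aeval Q).pow 2).add continuous_const
  · positivity

/-- the generator attached to a polynomial -/
noncomputable def gen (R : ℝ) {δ : ℝ} (hδ : 0 < δ) (Q : ℤ[X]) : C(Icc (0 : ℝ) R, ℝ) :=
  ⟨fun x => S δ (aeval (x : ℝ) Q), (cont_S hδ Q).comp continuous_subtype_val⟩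

theorem gen_mem (R : ℝ) {δ : ℝ} (hδ : 0 < δ) {Q : ℤ[X]} (hQ : Q ≠ 0) : gen R hδ Q ∈ Cone R := by
  intro η hη
  refine ⟨1, Q, one_pos, hQ, fun x => ?_⟩
  set t : ℝ := aeval (x : ℝ) Q with ht
  have h1 : |t| ≤ Real.exp (S δ t) := by
    have hpos : 0 < t ^ 2 + δ ^ 2 := by positivity
    have : Real.exp (S δ t) ^ 2 = t ^ 2 + δ ^ 2 := by
      rw [← Real.exp_nat_mul]
      unfold S
      have : ((2 : ℕ) : ℝ) * (Real.log (t ^ 2 + δ ^ 2) / 2) = Real.log (t ^ 2 + δ ^ 2) := by
        push_cast; ring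
      rw [this, Real.exp_log hpos]
    refine abs_le_of_sq_le_sq' ?_ (Real.exp_pos _).le |>.elim (fun a b => abs_le.2 ⟨a, b⟩)
    rw [this]; nlinarith [sq_nonneg δ]
  refine h1.trans (Real.exp_le_exp.2 ?_)
  simp only [gen, ContinuousMap.coe_mk, Nat.cast_one, one_mul, ← ht]
  linarith

theorem dual : S_DUAL := by
  intro R lam hR hC
  haveI : Nonempty (Icc (0 : ℝ) R) := ⟨⟨0, le_rfl, hR.le⟩⟩
  let idc : C(Icc (0 : ℝ) R, ℝ) := ⟨Subtype.val, continuous_subtype_val⟩
  let b0 : C(Icc (0 : ℝ) R, ℝ) := idc - lam • 1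
  let Pos : Set C(Icc (0 : ℝ) R, ℝ) := {h | ∀ x, 0 < h x}
  let D : Set C(Icc (0 : ℝ) R, ℝ) := {b | ∃ g ∈ Cone R, b = b0 - g}
  have hmin : ∀ h ∈ Pos, ∃ m : ℝ, 0 < m ∧ ∀ x, m ≤ h x := by
    intro h hh
    obtain ⟨x0, -, hx0⟩ := isCompact_univ.exists_isMinOn (univ_nonempty) h.continuous.continuousOn
    exact ⟨h x0, hh x0, fun x => hx0 (mem_univ x)⟩
  have hPc : Convex ℝ Pos := by
    intro h hh h' hh' a b ha hb hab x
    simp only [ContinuousMap.add_apply, ContinuousMap.smul_apply, smul_eq_mul]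
    have := hh x
    have := hh' x
    rcases ha.eq_or_lt with rfl | ha'
    · have : b = 1 := by linarith
      subst this; simpa using hh' x
    · have : 0 ≤ b * h' x := by positivity
      have : 0 < a * h x := by positivity
      linarith
  have hPo : IsOpen Pos := by
    rw [Metric.isOpen_iff]
    intro h hh
    obtain ⟨m, hm, hm'⟩ := hmin h hh
    refine ⟨m, hm, fun h' hh' x => ?_⟩
    have h1 : dist (h' x) (h x) < m := lt_of_le_of_lt (ContinuousMap.dist_apply_le_dist x) hh'
    rw [Real.dist_eq, abs_lt] at h1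
    linarith [hm' x]
  have hDc : Convex ℝ D := by
    rintro _ ⟨g, hg, rfl⟩ _ ⟨g', hg', rfl⟩ a b ha hb hab
    refine ⟨a • g + b • g', add_mem (smul_mem hg ha) (smul_mem hg' hb), ?_⟩
    ext x
    simp only [ContinuousMap.add_apply, ContinuousMap.smul_apply, ContinuousMap.sub_apply,
      smul_eq_mul]
    have : b = 1 - a := by linarith
    subst this; ring
  have hdis : Disjoint Pos D := by
    rw [Set.disjoint_left]
    rintro _ hh ⟨g, hg, rfl⟩
    obtain ⟨m, hm, hm'⟩ := hmin _ hh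
    obtain ⟨M, P, hM, hP, h⟩ := hg (m / 2) (by positivity)
    refine hC (m / 2) (by positivity) ⟨M, P, hM, hP, fun x hx => ?_⟩
    refine (h ⟨x, hx⟩).trans (Real.exp_le_exp.2 (mul_le_mul_of_nonneg_left ?_ (by positivity)))
    have := hm' ⟨x, hx⟩
    simp only [b0, idc, ContinuousMap.sub_apply, ContinuousMap.smul_apply, ContinuousMap.coe_mk,
      ContinuousMap.one_apply, smul_eq_mul, mul_one] at this
    linarith
  obtain ⟨f, u, hf1, hf2⟩ := geometric_hahn_banach_open hPc hPo hDc hdis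
  have hone : (1 : C(Icc (0 : ℝ) R, ℝ)) ∈ Pos := fun x => by simp
  have hsm : ∀ h ∈ Pos, ∀ c : ℝ, 0 < c → c * f h < u := by
    intro h hh c hc
    have := hf1 (c • h) (fun x => by
      simp only [ContinuousMap.smul_apply, smul_eq_mul]
      exact mul_pos hc (hh x))
    simpa using this
  have hu : 0 ≤ u := by
    by_contra hneg
    push Not at hneg
    have h1 := hsm 1 hone (-u / (|f 1| + 1)) (by have := abs_nonneg (f 1); apply div_pos <;> linarith)
    have h2 : -|f 1| ≤ f 1 := neg_abs_le _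
    have h3 : 0 < |f 1| + 1 := by positivity
    rw [div_mul_eq_mul_div, div_lt_iff₀ h3] at h1
    nlinarith
  have hneg : ∀ h ∈ Pos, f h ≤ 0 := by
    intro h hh
    by_contra hp
    push Not at hp
    have h1 := hsm h hh ((u + 1) / f h) (by positivity)
    rw [div_mul_cancel₀ _ hp.ne'] at h1
    linarith
  have hneg' : ∀ h : C(Icc (0 : ℝ) R, ℝ), (∀ x, 0 ≤ h x) → f h ≤ 0 := by
    intro h hh
    by_contra hp
    push Not at hp
    have h3 : 0 < |f 1| + 1 := by positivity
    have h1 := hneg (h + (f h / (|f 1| + 1)) • 1) (fun x => by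
      simp only [ContinuousMap.add_apply, ContinuousMap.smul_apply, ContinuousMap.one_apply,
        smul_eq_mul, mul_one]
      have := hh x
      have : 0 < f h / (|f 1| + 1) := by positivity
      linarith)
    rw [map_add, map_smul, smul_eq_mul, div_mul_eq_mul_div] at h1
    have h2 : -|f 1| ≤ f 1 := neg_abs_le _
    have h4 : f h * f 1 / (|f 1| + 1) ≤ -f h := by linarith
    rw [div_le_iff₀ h3] at h4
    nlinarith
  have hb0 : u ≤ f b0 := hf2 b0 ⟨0, zero_mem R, by simp⟩
  have hf1neg : f 1 < 0 := by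
    rcases (hneg 1 hone).eq_or_lt with h0 | h0
    · exfalso
      have h1 := hf1 1 hone
      have h2 := hneg' (b0 + |lam| • 1) (fun x => by
        simp only [b0, idc, ContinuousMap.add_apply, ContinuousMap.sub_apply,
          ContinuousMap.smul_apply, ContinuousMap.coe_mk, ContinuousMap.one_apply, smul_eq_mul,
          mul_one]
        have := x.2.1
        have := le_abs_self lam
        linarith)
      rw [map_add, map_smul, h0] at h2
      simp at h2
      linarith
    · exact h0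
  have hcone : ∀ g ∈ Cone R, f g ≤ 0 := by
    intro g hg
    by_contra hp
    push Not at hp
    have h1 := hf2 (b0 - ((f b0 - u + 1) / f g) • g)
      ⟨_, smul_mem hg (div_nonneg (by linarith) hp.le), rfl⟩
    rw [map_sub, map_smul, smul_eq_mul, div_mul_cancel₀ _ hp.ne'] at h1
    linarith
  let L : C(Icc (0 : ℝ) R, ℝ) →ₗ[ℝ] ℝ := (f 1)⁻¹ • f.toLinearMap
  have hLa : ∀ h, L h = (f 1)⁻¹ * f h := fun h => rfl
  have hinv : (f 1)⁻¹ < 0 := inv_lt_zero.2 hf1neg
  obtain ⟨μ, hμ, hint⟩ := exists_measure L (fun h hh => by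
    rw [hLa]; exact mul_nonneg_of_nonpos_of_nonpos hinv.le (hneg' h hh))
  have hμ1 : IsProbabilityMeasure μ := by
    have h1 := hint 1
    rw [hLa, inv_mul_cancel₀ hf1neg.ne] at h1
    simp only [ContinuousMap.one_apply, integral_const, smul_eq_mul, mul_one] at h1
    constructor
    rw [← ENNReal.toReal_eq_one_iff]
    exact h1
  have hme : MeasurableEmbedding (Subtype.val : Icc (0 : ℝ) R → ℝ) :=
    MeasurableEmbedding.subtype_coe measurableSet_Icc
  refine ⟨μ.map Subtype.val, Measure.isProbabilityMeasure_map hme.measurable.aemeasurable, ?_, ?_, ?_⟩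
  · unfold Supp
    rw [hme.ae_map_iff]
    exact Filter.Eventually.of_forall fun x => x.2
  · intro Q hQ δ hδ
    rw [hme.integral_map]
    have h1 := hint (gen R hδ Q)
    have h2 : 0 ≤ L (gen R hδ Q) := by
      rw [hLa]; exact mul_nonneg_of_nonpos_of_nonpos hinv.le (hcone _ (gen_mem R hδ hQ))
    rw [← h1] at h2
    exact h2
  · rw [hme.integral_map]
    have h1 := hint idc
    have h2 : f b0 = f idc - lam * f 1 := by
      simp only [b0, map_sub, map_smul, smul_eq_mul]
    have h3 : L idc ≤ lam := by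
      rw [hLa]
      have h4 : lam * f 1 ≤ f idc := by linarith
      have h5 := mul_le_mul_of_nonpos_left h4 hinv.le
      have h6 : (f 1)⁻¹ * (lam * f 1) = lam := by field_simp [hf1neg.ne]
      linarith
    rw [← h1] at h3
    exact h3

end Pool.Agent.H822Z.SssDual
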